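import Pool.Agent.U174.Green.Torsion

/-!
# Green's conjecture fails for a 4-connected curve

The octahedral curve `C`: six projective lines which meet like the vertices of an octahedron (every
line meets the four lines which are not opposite to it in one node each). It is 4-connected, not
hyperelliptic, of arithmetic genus `7`; its canonical model is a union of six conics in `ℙ⁶`.

Let `A` be one of the components and `B` the union of the others. The direct image `F` of the
structure sheaf of the disjoint union of `A` and `B` has degree `A · B = 4`, `h⁰(F) = 2` and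
`h¹(F) = h¹(𝒪_B) = 4`. So `Cliff(C) ≤ Cliff(F) = 2`, and the conjecture predicts
`K_{3,1}(C, ω_C) ≠ 0`, as `3 < 7 - Cliff(C) - 1`. But `K_{3,1}(C, ω_C) = 0` (for a suitable choice of
the coordinates of the nodes).

The degree `deg F|_{C_v}` can be read in two ways, `F|_{C_v}` being `F ⊗ 𝒪_{C_v}` modulo torsion
(`C.cliff`) or with its torsion (`C.cliffT`). The theorem holds for both. For the second the sheaf
`G`, the direct image of the dualizing sheaf of the disjoint union of `A` and `B`, has
`deg G = 8`, `h⁰(G) = 4` and `h¹(G) = 2`, so `Cliff(G) = 2` again.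
-/

set_option autoImplicit false

namespace Pool.Agent.Results.MP_99eb35_ag.OctahedralCurve

open Pool.Agent.U174.Green

/-- **Green's conjecture fails for a 4-connected curve.** Over every algebraically closed field of
characteristic zero there is a connected nodal curve `C`, with projective lines as components, which
is 4-connected and not hyperelliptic, of arithmetic genus `7`, with `Cliff(C) ≤ 2` and
`K_{3,1}(C, ω_C) = 0`. Hence it is not true for `p = 3` that
`K_{p,1}(C, ω_C) = 0` if and only if `p ≥ p_a(C) - Cliff(C) - 1`. This holds for both readings of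
the degrees `deg F|_{C_v}` in the definition of `Cliff(C)`, modulo torsion (`cliff`) and with the
torsion (`cliffT`). -/
theorem result (k : Type) [Field k] [IsAlgClosed k] [CharZero k] :
    ∃ C : LineCurve k, C.Connected ∧ C.MConnected 4 ∧ ¬ C.Hyperelliptic ∧
      C.pa = 7 ∧ C.omega.h0 = 7 ∧ C.KZero 2 ∧
      (IsLeast C.cliffordSet C.cliff ∧ C.cliff ≤ 2 ∧
        ¬ (C.KZero 2 ↔ (3 : ℤ) ≥ C.pa - C.cliff - 1)) ∧
      (IsLeast C.cliffordSetT C.cliffT ∧ C.cliffT ≤ 2 ∧
        ¬ (C.KZero 2 ↔ (3 : ℤ) ≥ C.pa - C.cliffT - 1)) := by
  have h3 := Octa.pa_octa (k := k)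
  refine ⟨Octa.octa k, Octa.connected_octa, Octa.mConnected_octa, Octa.not_hyperelliptic_octa,
    h3, Octa.h0_omega_octa, Octa.kZero_octa,
    ⟨isLeast_cliff ⟨_, Octa.cliff_mem k⟩, Octa.cliff_le k, fun h => ?_⟩,
    ⟨isLeast_cliffT ⟨_, Octa.cliff_memT k⟩, Octa.cliffT_le k, fun h => ?_⟩⟩
  · have h1 := h.1 Octa.kZero_octa
    have h2 := Octa.cliff_le k
    omega
  · have h1 := h.1 Octa.kZero_octa
    have h2 := Octa.cliffT_le k
    omega

end Pool.Agent.Results.MP_99eb35_ag.OctahedralCurve
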